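import Pool.Agent.H15.IX.TE

/-!
# MON: monomials are counted by `Hc`
-/

set_option autoImplicit false

open Finset Pool.Agent.H15.IX
open MvPolynomial

namespace Pool.Agent.H88.IX

/-- forget the exponents of the `ε` -/
def kp {r n : ℕ} (s : Vr r n → ℕ) : (Fin r × Fin (n + 1)) ⊕ Unit → ℕ :=
  Sum.elim (fun z => s (Sum.inl z)) fun _ => s (Sum.inr (Sum.inr ()))

theorem weight_eq {r n : ℕ} (s : Vr r n →₀ ℕ) (j : Fin (r + 1)) :
    Finsupp.weight (dv r n) s j = ((∑ i, kp s i * (ps r n i - (j : ℕ)) : ℕ) : ℤ) +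
      ∑ i : Fin r, (s (Sum.inr (Sum.inl i)) : ℤ) * (if (j : ℕ) = (i : ℕ) + 1 then -1 else 0) := by
  rw [Finsupp.weight_apply, Finsupp.sum_fintype _ _ (by intro v; simp), Finset.sum_apply]
  simp only [Fintype.sum_sum_type, Pi.smul_apply, smul_eq_mul, dv, nsmul_eq_mul]
  simp only [kp, ps, Sum.elim_inl, Sum.elim_inr, Finset.univ_unique, Finset.sum_singleton]
  push_cast
  ring

theorem weight_zero {r n : ℕ} (s : Vr r n →₀ ℕ) :
    Finsupp.weight (dv r n) s 0 = ((∑ i, kp s i * ps r n i : ℕ) : ℤ) := by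
  rw [weight_eq]
  simp

theorem weight_succ {r n : ℕ} (s : Vr r n →₀ ℕ) (i : Fin r) :
    Finsupp.weight (dv r n) s i.succ =
      ((∑ l, kp s l * (ps r n l - ((i : ℕ) + 1)) : ℕ) : ℤ) - s (Sum.inr (Sum.inl i)) := by
  rw [weight_eq, Finset.sum_eq_single i]
  · simp only [Fin.val_succ, if_true]
    ring
  · intro b _ hb
    rw [if_neg, mul_zero]
    intro h
    apply hb
    rw [Fin.val_succ] at h
    exact Fin.ext (by omega)
  · intro h; exact absurd (Finset.mem_univ _) h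

/-- the inverse -/
noncomputable def bk {r n : ℕ} (A : Fin (r + 1) → ℤ) (κ : (Fin r × Fin (n + 1)) ⊕ Unit → ℕ) :
    Vr r n → ℕ
  | Sum.inl z => κ (Sum.inl z)
  | Sum.inr (Sum.inl i) =>
    (((∑ l, κ l * (ps r n l - ((i : ℕ) + 1)) : ℕ) : ℤ) - A i.succ).toNat
  | Sum.inr (Sum.inr _) => κ (Sum.inr ())

theorem kp_bk {r n : ℕ} (A : Fin (r + 1) → ℤ) (κ : (Fin r × Fin (n + 1)) ⊕ Unit → ℕ) :
    kp (bk A κ) = κ := by
  funext v
  rcases v with v | v
  · rfl
  · rfl

theorem pf_MON : T_MON := by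
  intro r n A
  unfold mon Hc
  refine Nat.card_congr
    { toFun := fun s => ⟨kp s.1, ?_, ?_⟩
      invFun := fun κ => ⟨Finsupp.equivFunOnFinite.symm (bk A κ.1), ?_⟩
      left_inv := ?_
      right_inv := ?_ }
  · rw [← weight_zero, s.2]
  · intro j hj
    obtain ⟨h1, h2⟩ := Finset.mem_Icc.1 hj
    have h3 := weight_succ s.1 ⟨j - 1, by omega⟩
    rw [s.2] at h3
    have h4 : ext0 A j = A (Fin.succ ⟨j - 1, by omega⟩) := by
      unfold ext0
      rw [dif_pos (by omega)]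
      congr 1
      apply Fin.ext
      simp only [Fin.val_succ]
      omega
    rw [h4, h3]
    have h5 : j - 1 + 1 = j := by omega
    simp only [h5]
    have h6 : (0 : ℤ) ≤ (s.1 (Sum.inr (Sum.inl ⟨j - 1, by omega⟩)) : ℤ) := Int.natCast_nonneg _
    linarith
  · funext j
    refine Fin.cases ?_ (fun i => ?_) j
    · rw [weight_zero]
      show ((∑ i, kp (bk A κ.1) i * ps r n i : ℕ) : ℤ) = A 0
      rw [kp_bk]
      exact κ.2.1
    · rw [weight_succ]
      show ((∑ l, kp (bk A κ.1) l * (ps r n l - ((i : ℕ) + 1)) : ℕ) : ℤ) -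
        (((((∑ l, κ.1 l * (ps r n l - ((i : ℕ) + 1)) : ℕ) : ℤ) - A i.succ).toNat : ℕ) : ℤ) =
          A i.succ
      rw [kp_bk]
      have h1 := κ.2.2 ((i : ℕ) + 1) (Finset.mem_Icc.2 ⟨by omega, by have := i.2; omega⟩)
      have h4 : ext0 A ((i : ℕ) + 1) = A i.succ := by
        unfold ext0
        rw [dif_pos (by have := i.2; omega)]
        rfl
      rw [h4] at h1
      rw [Int.toNat_of_nonneg (by linarith)]
      ring
  · intro s
    apply Subtype.ext
    apply Finsupp.ext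
    intro v
    show bk A (kp s.1) v = s.1 v
    rcases v with v | v | v
    · rfl
    · show (((∑ l, kp s.1 l * (ps r n l - ((v : ℕ) + 1)) : ℕ) : ℤ) - A v.succ).toNat = _
      have h1 := weight_succ s.1 v
      rw [s.2] at h1
      rw [h1]
      simp
    · rfl
  · intro κ
    apply Subtype.ext
    exact kp_bk A κ.1

end Pool.Agent.H88.IX
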